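import Pool.Agent.Q152.AM.Norm
import Pool.Agent.Y43.CH.Syll

/-!
# Amalgamated products over a subgroup which is normal in one of the factors

`Closed C` (`Pool.Agent.Y462.SS.Base`): the class `C` of groups contains `ℤ` and is closed under
groups that embed, finite products, free products, overgroups of finite index and colimits of directed
systems.  `ExtClosed C` (`Pool.Agent.Q152.WP.Perm`): if `G` maps onto a group `Q` of `C`, and the
kernel and the preimages of all infinite cyclic subgroups of `Q` are in `C`, then `G` is in `C`.  These
properties are known for the class of the groups which satisfy the `K`-theoretic Farrell–Jones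
conjecture with coefficients in additive categories and finite wreath products.

Here `G = A false` and `K = A true` are the factors, `φ false` and `φ true` the embeddings of `H`,
`Monoid.PushoutI φ` (Mathlib) is the amalgamated product `G *_H K`, and `R` is the quotient `K/H`.

Proof.  Let first `K` act on `H` like elements of `G`.  The amalgamated product maps onto `R`, and by
the induced action on the cosets, the preimage of a cyclic subgroup `K₀/H` of `R` embeds in the
amalgamated product over `H` of `K₀` and of copies of `G` indexed by `K/K₀`, which has a homomorphism to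
`G` that is injective on `H`.  In general one applies this to `Q *_H K`, and then the theorem on
homomorphisms which are injective on the amalgamated subgroup (`Pool.Agent.Q143.EI`).
-/

set_option autoImplicit false

namespace Pool.Agent.Results.MP_c052b4_al.AmalgamsOverNormal

open Monoid Pool.Agent.Y462.SS Pool.Agent.Q152.WP Pool.Agent.Q152.AM

/-- Let `C` be a class of groups with the closure properties `Closed C` and `ExtClosed C`, and let
`PushoutI φ` be the amalgamated product of the groups `G = A false` and `K = A true` over `H`.
(1) Let `j` be a homomorphism of `G` to a group `Q` of `C` which is injective on `H`.  Suppose that for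
every `κ` in `K` there is a `q` in `Q` such that conjugation by `κ` maps `H` to `H` and is given there
by conjugation by `q` (in particular `H` is normal in `K`), and that the quotient `R` of `K` by `H` is in
`C`.  Then the amalgamated product is in `C` if and only if `G` is in `C`.
(2) It is torsion-free if `G` and `K` are.
(3) In particular, if `H` is central in `K`, and `G` and `K/H` are in `C`, then the
amalgamated product is in `C`. -/
theorem result (C : ∀ (G : Type) [Group G], Prop) (hC : Closed C) (hE : ExtClosed C)
    (H : Type) [Group H] (A : Bool → Type) [∀ i, Group (A i)] (φ : ∀ i, H →* A i)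
    (hφ : ∀ i, Function.Injective (φ i)) (R : Type) [Group R] (hR : C R) (π : A true →* R)
    (hπ : Function.Surjective π) (hπK : π.ker = (φ true).range) :
    (∀ (Q : Type) [Group Q] (j : A false →* Q), C Q → Function.Injective (j.comp (φ false)) →
      (∀ κ : A true, ∃ q : Q, ∀ h, ∃ h', φ true h' = κ * φ true h * κ⁻¹ ∧
        j (φ false h') = q * j (φ false h) * q⁻¹) →
      (C (PushoutI φ) ↔ C (A false))) ∧
    ((∀ i (x : A i), IsOfFinOrder x → x = 1) → ∀ x : PushoutI φ, IsOfFinOrder x → x = 1) ∧
    ((∀ (κ : A true) (h : H), κ * φ true h = φ true h * κ) → C (A false) → C (PushoutI φ)) := by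
  have hπK' : ∀ κ, π κ = 1 ↔ κ ∈ (φ true).range := by
    intro κ
    rw [← hπK]
    exact Iff.rfl
  refine ⟨?_, ?_, ?_⟩
  · intro Q _ j hQ hj hact
    exact ⟨fun h => hC.of_injective _ _ (PushoutI.of (φ := φ) false)
      (PushoutI.of_injective hφ false) h,
      fun hG => general_amalgam hC hE φ hφ hG hQ j hj hact hR π hπ hπK'⟩
  · intro hA x hx
    obtain ⟨n, hn, hxn⟩ := isOfFinOrder_iff_pow_eq_one.1 hx
    obtain ⟨c, b, y, h1, h2⟩ := Pool.Agent.Y43.CH.amalg_torsion hφ x n hn.ne' hxn
    have h3 : y = 1 := hA b y (isOfFinOrder_iff_pow_eq_one.2 ⟨n, hn, h2⟩)
    rw [h1, h3, map_one, mul_one, mul_inv_cancel]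
  · intro hcen hG
    refine normal_amalgam hC hE (amal_pushout φ) (hφ false) (hφ true) ?_ hG hR π hπ hπK'
    intro κ
    refine ⟨1, fun h => ⟨h, ?_, ?_⟩⟩
    · rw [hcen κ h, mul_inv_cancel_right]
    · group

end Pool.Agent.Results.MP_c052b4_al.AmalgamsOverNormal
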