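import Pool.Agent.Q143.KZ.K0R
import Pool.Agent.Q143.KZ.VanT
import Pool.Agent.Y477.IW.GP

/-!
The groups `K_0(R[G])` of semidirect products with equivariant retractions.

Let the group `Γ` act on a group `N` and on a set `X` with finite point stabilizers, and let `e_S`
(`S ⊆ X`) be compatible retractions of `N`: endomorphisms with `e_S e_T = e_{S ∩ T}`,
`γ e_S = e_{γ S} γ`, `e_∅` trivial, such that each element of `N` is fixed by some `e_S`, `S` finite
(for instance, `N` the graph product of copies of any group over an invariant graph with vertex set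
`X`; for the complete graph on `X = Γ` the group `N ⋊ Γ` is the restricted wreath product).
Let `R` be any ring and `K(G) = K_0(R[G])`.

(1) If `Γ` is torsion-free and all elements of `K(N ⋊ Γ)` come from the trivial group (that is, if
the assembly map `K_0(R) → K_0(R[N ⋊ Γ])` is surjective), then the same holds for `N`. More
generally, if each element of `K(N)` becomes in `K(N ⋊ Γ)` the image of an element of `K(Γ)`, then
all elements of `K(N)` come from the trivial group.

(2) The coinvariants of `K(N)` embed in `K(N ⋊ Γ)` modulo `K(Γ)` up to the orders of the finite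
subgroups of `Γ`; for torsion-free `Γ` the parts of `K(N)` belonging to different orbits of finite
subsets of `X` are independent in `K(N ⋊ Γ)` modulo `K(Γ)`; and the kernel of every natural
transformation from a functor `H` to `K` is generated by the kernels for `Γ` and for the parts of
`N`, up to the orders of the finite subgroups of `Γ`.
-/

namespace Pool.Agent.Results.MP_c052b4_al.EquivariantRetractionsKZero

open CategoryTheory Pool.Agent.Y483 Pool.Agent.Y483.CS Pool.Agent.Y483.PI Pool.Agent.Y477.IW
  Pool.Agent.Q143.KZ Pool.Agent.Q143.KF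

theorem result (Γ X : Type) [Group Γ] [MulAction Γ X]
    (hst : ∀ v : X, Finite (MulAction.stabilizer Γ v)) :
    (∀ (R : Type) [Ring R] (N : Type) [Group N] (φ : Γ →* MulAut N) (us : USupp φ X),
      ((∀ g : Γ, g ≠ 1 → ¬ IsOfFinOrder g) →
        (FromTriv (k0gr R) (N ⋊[φ] Γ) → FromTriv (k0gr R) N) ∧
        (FromTop (k0gr R) φ → FromTriv (k0gr R) N) ∧ OrbitsIndependent (k0gr R) us) ∧
      ∀ m : ℕ, (∀ K : Subgroup Γ, Finite K → Nat.card K ∣ m) →
        CoinvariantsEmbed (k0gr R) φ m ∧ KernelFormulaOver (k0gr R) us m) ∧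
    ∀ (P : Type) [Group P] (Λ : SimpleGraph X),
      (∀ (γ : Γ) (u v : X), Λ.Adj u v → Λ.Adj (γ • u) (γ • v)) → HasRetractions Γ P Λ :=
  ⟨fun R _ N _ φ us => ⟨fun htf =>
      ⟨fun h => fromTriv_of_fromTop us (hasPTI_k0gr R) (contL_k0gr R) hst (finite_eq_bot htf)
          (fromTop_of_fromTriv h),
        fun h => fromTriv_of_fromTop us (hasPTI_k0gr R) (contL_k0gr R) hst (finite_eq_bot htf) h,
        orbitsIndependent_of us (hasPTI_k0gr R) hst (finite_eq_bot htf)⟩,
      fun m hm => ⟨coinvariantsEmbed_of us (hasPTI_k0gr R) (contL_k0gr R) hst m hm,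
        kernelFormulaOver_of us (hasPTI_k0gr R) hst m hm⟩⟩,
    fun P _ Λ hΛ => hasRetractions Γ P Λ hΛ⟩

end Pool.Agent.Results.MP_c052b4_al.EquivariantRetractionsKZero
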