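import Pool.Agent.Q91.PP.Over
import Pool.Agent.Y84.PK.O

/-!
# Odd cyclic cocycles on invertible matrices over group algebras of groups of piecewise projective
# homeomorphisms

Let `K` be a field of characteristic zero and `G` a torsion-free group. If the assembly map
`H₁(BG; K(K)) → K₁(K[G])` is surjective, then `K₁(K[G])` is generated by `K₁(K)` and `G`, so for
every invertible matrix `u` over `K[G]` there is `γ ∈ G` such that all cyclic cocycles of odd
degree `2 n + 1` on `K[G]`, that is all cycles `(Ω, δ, T)` of dimension `2 n + 1` in the sense of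
Connes, take the same value on `u` and on `γ`. We prove this for all cycles with values in finitely
generated modules over finitely generated rings, if every element `g ≠ 1` of every finitely
generated subgroup `H` of `G` is detected by an action of `H` by piecewise projective homeomorphisms
of the line, or by a linear representation of `H` in characteristic zero which maps it to an element
of infinite order: for example for Thompson's group `F`, for Monod's non-amenable groups without
free subgroups, for the groups of Lodha and Moore, and for groups which are residually of this kind.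
-/

set_option autoImplicit false

namespace Pool.Agent.Results.MP_c052b4_al.OddCyclesProjective

universe u1 u2 u3 u4 u5 u6

/-- `(Ω, δ, T)` is a cycle of dimension `N` with values in the vector space `M`: `Ω` is a graded
algebra with homogeneous components `𝒜 i`, `δ` is a differential of degree one, and `T` is a
closed graded trace which vanishes outside degree `N`. -/
structure IsCycle {K : Type u1} [Field K] {Ω : Type u4} [Ring Ω] [Algebra K Ω] {M : Type u5}
    [AddCommGroup M] [Module K M] (N : ℕ) (𝒜 : ℕ → Submodule K Ω) [GradedAlgebra 𝒜]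
    (δ : Ω →ₗ[K] Ω) (T : Ω →ₗ[K] M) : Prop where
  deg : ∀ i, ∀ x ∈ 𝒜 i, δ x ∈ 𝒜 (i + 1)
  sq : ∀ x, δ (δ x) = 0
  leibniz : ∀ i, ∀ x ∈ 𝒜 i, ∀ y, δ (x * y) = δ x * y + (-1) ^ i * (x * δ y)
  closed : ∀ x, T (δ x) = 0
  trace : ∀ i j, ∀ x ∈ 𝒜 i, ∀ y ∈ 𝒜 j, T (x * y) = T ((-1) ^ (i * j) * (y * x))
  dim : ∀ i, i ≠ N → ∀ x ∈ 𝒜 i, T x = 0

/-- `f` is piecewise projective: there are finitely many real matrices with nonzero determinant
such that `f` is given by one of the corresponding maps `z ↦ (α z + β) / (γ z + δ)` near `-∞` and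
to the right of each point of the line. -/
def IsPiecewiseProjective (f : ℝ → ℝ) : Prop :=
  ∃ S : Finset (Matrix (Fin 2) (Fin 2) ℝ), (∀ M ∈ S, M.det ≠ 0) ∧
    (∃ M ∈ S, ∃ b : ℝ, ∀ z < b, f z * (M 1 0 * z + M 1 1) = M 0 0 * z + M 0 1) ∧
    ∀ a : ℝ, ∃ M ∈ S, ∃ b > a, ∀ z, a < z → z < b →
      f z * (M 1 0 * z + M 1 1) = M 0 0 * z + M 0 1

/-- `g` is detected by an action of `H` by increasing piecewise projective homeomorphisms, or by a
linear representation in characteristic zero which maps it to an element of infinite order. -/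
def Detected {H : Type u2} [Group H] (g : H) : Prop :=
  (∃ ρ : H →* (ℝ ≃o ℝ), (∀ x, IsPiecewiseProjective (ρ x)) ∧ ρ g ≠ 1) ∨
  ∃ (K : Type u6) (_ : Field K) (_ : CharZero K) (N : ℕ) (φ : H →* GL (Fin N) K),
    ∀ E : ℕ, 0 < E → φ g ^ E ≠ 1

/-- The value of the cycle on the group elements `a`, `b₁`, …, `b_r`. -/
noncomputable def value {K : Type u1} [Field K] {G : Type u2} [Group G] {Ω : Type u4} [Ring Ω]
    [Algebra K Ω] {M : Type u5} [AddCommGroup M] [Module K M] (δ : Ω →ₗ[K] Ω) (T : Ω →ₗ[K] M)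
    (ρ : MonoidAlgebra K G →ₐ[K] Ω) (a : G) (l : List G) : M :=
  T (ρ (MonoidAlgebra.single a 1) * (l.map fun b => δ (ρ (MonoidAlgebra.single b 1))).prod)

/-- The subgroup generated by the supports of the entries of `u` and `v`. -/
def supp {K : Type u1} [Field K] {G : Type u2} [Group G] {d : Type u3}
    (u v : Matrix d d (MonoidAlgebra K G)) : Subgroup G :=
  Subgroup.closure {g | ∃ i j, (u i j).coeff g ≠ 0 ∨ (v i j).coeff g ≠ 0}

/-- The value `T (v δu (δv δu) ^ n)` of the cycle on the matrix `u` with inverse `v`. -/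
noncomputable def onMat {K : Type u1} [Field K] {G : Type u2} [Group G] {d : Type u3} [Fintype d]
    [DecidableEq d] {Ω : Type u4} [Ring Ω] [Algebra K Ω] {M : Type u5} [AddCommGroup M] [Module K M]
    (δ : Ω →ₗ[K] Ω) (T : Ω →ₗ[K] M) (ρ : MonoidAlgebra K G →ₐ[K] Ω) (n : ℕ)
    (u v : Matrix d d (MonoidAlgebra K G)) : M :=
  T (v.map ρ * (u.map ρ).map δ * ((v.map ρ).map δ * (u.map ρ).map δ) ^ n).trace

/-- The value `T (γ⁻¹ δγ (δγ⁻¹ δγ) ^ n)` of the cycle on the group element `γ`. -/
noncomputable def onElt {K : Type u1} [Field K] {G : Type u2} [Group G] {Ω : Type u4} [Ring Ω]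
    [Algebra K Ω] {M : Type u5} [AddCommGroup M] [Module K M] (δ : Ω →ₗ[K] Ω) (T : Ω →ₗ[K] M)
    (ρ : MonoidAlgebra K G →ₐ[K] Ω) (n : ℕ) (γ : G) : M :=
  T (ρ (MonoidAlgebra.single γ⁻¹ 1) * δ (ρ (MonoidAlgebra.single γ 1)) *
    (δ (ρ (MonoidAlgebra.single γ⁻¹ 1)) * δ (ρ (MonoidAlgebra.single γ 1))) ^ n)

/-- `K` is a field of characteristic zero, `G` a group in which the elements `≠ 1` of the finitely
generated subgroups are detected, `u` an invertible matrix over `K[G]` with inverse `v`. There is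
`γ ∈ G` such that `T (v δu (δv δu) ^ n) = T (γ⁻¹ δγ (δγ⁻¹ δγ) ^ n)` for all `n ≥ 0` and all cycles
`(Ω, δ, T)` over `K[G]` of dimension `2 n + 1` whose values on the subgroup generated by the
supports of `u` and `v` lie in the module generated by a finite set `F` over the subring generated
by a finite set `s`. -/
theorem result (K : Type u1) [Field K] [CharZero K] (G : Type u2) [Group G]
    (hG : ∀ H : Subgroup G, H.FG → ∀ g : H, g ≠ 1 → Detected.{u2, u6} g) (d : Type u3)
    [Fintype d] [DecidableEq d] (u v : Matrix d d (MonoidAlgebra K G)) (huv : u * v = 1)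
    (hvu : v * u = 1) : ∃ γ : G,
    ∀ (Ω : Type u4) [Ring Ω] [Algebra K Ω] (𝒜 : ℕ → Submodule K Ω) [GradedAlgebra 𝒜]
      (M : Type u5) [AddCommGroup M] [Module K M] (δ : Ω →ₗ[K] Ω) (T : Ω →ₗ[K] M) (n : ℕ),
      IsCycle (2 * n + 1) 𝒜 δ T → ∀ ρ : MonoidAlgebra K G →ₐ[K] Ω, (∀ a, ρ a ∈ 𝒜 0) →
      ∀ (s : Finset K) (F : Finset M),
      (∀ (a : supp u v) (l : List (supp u v)), l.length = 2 * n + 1 →
        value δ T ρ a (l.map Subtype.val) ∈
          Submodule.span (Algebra.adjoin ℤ (s : Set K)) (F : Set M)) →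
      onMat δ T ρ n u v = onElt δ T ρ n γ := by
  classical
  have hFG : (supp u v).FG := by
    refine ⟨Finset.univ.biUnion fun i => Finset.univ.biUnion fun j =>
      (u i j).coeff.support ∪ (v i j).coeff.support, ?_⟩
    unfold supp
    congr 1
    ext g
    simp [Finsupp.mem_support_iff]
  have : Group.FG (supp u v) := (Group.fg_iff_subgroup_fg _).2 hFG
  have hHu : ∀ i j g, (u i j).coeff g ≠ 0 → g ∈ supp u v := fun i j g hg =>
    Subgroup.subset_closure ⟨i, j, Or.inl hg⟩
  have hHv : ∀ i j g, (v i j).coeff g ≠ 0 → g ∈ supp u v := fun i j g hg =>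
    Subgroup.subset_closure ⟨i, j, Or.inr hg⟩
  have hinf : ∀ g : supp u v, g ≠ 1 →
      {p : ℕ | p.Prime ∧ ∀ j, 1 ≤ j → ¬ IsConj g (g ^ p ^ j)}.Infinite := by
    intro g hg
    have hd : Pool.Agent.Q91.PP.Detected.{u2, u6} g := hG _ hFG g hg
    exact Pool.Agent.Q91.PP.inf_primes.{u2, u6} hd
  obtain ⟨γ, hγ⟩ := Pool.Agent.Y84.PK.all_group.{u1, u2, u3, u4, u5} u v huv hvu (supp u v) hFG
    hHu hHv (fun g hg => Or.inl (hinf g hg))
  refine ⟨(γ : G), ?_⟩
  intro Ω _ _ 𝒜 _ M _ _ δ T n hT ρ hρ s F hval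
  have hmap : ∀ (a : supp u v) (l : List (supp u v)),
      value δ T ρ a (l.map Subtype.val) = T (ρ (MonoidAlgebra.single (a : G) 1) *
        (l.map fun b : supp u v => δ (ρ (MonoidAlgebra.single (b : G) 1))).prod) := by
    intro a l
    unfold value
    rw [List.map_map]
    rfl
  simp only [hmap] at hval
  exact hγ Ω 𝒜 M δ T n ⟨hT.deg, hT.sq, hT.leibniz, hT.closed, hT.trace, hT.dim⟩ ρ hρ s F hval
    (fun g hg => Or.inl (hinf g hg))

end Pool.Agent.Results.MP_c052b4_al.OddCyclesProjective
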