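import Pool.Agent.Q105.FJ.SymExt

/-!
# Extensions by infinite free products, with symmetric automorphisms

`Closed C` (`Pool.Agent.Y462.SS.Base`): the class `C` of groups contains `ℤ` and is closed under
groups that embed, finite products, free products, overgroups of finite index and colimits of directed
systems with arbitrary structure maps.  `ExtClosed C` (`Pool.Agent.Q152.WP.Perm`): if `G` maps onto a
group `Q` of `C`, and the kernel and the preimages of all infinite cyclic subgroups of `Q` are in `C`,
then `G` is in `C`.  All these properties are known for the class of the groups which satisfy the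
K-theoretic Farrell–Jones conjecture with coefficients and finite wreath products.

`CoprodI P` is the free product of the groups `P v`, `v ∈ V` (any index set), and `MT N α` is the
mapping torus of the automorphism `α` of `N`.  An automorphism `α` of the free product is symmetric (`SymAut`) if it
permutes the factors up to conjugation: for a permutation `σ` of `V`, elements `g v` and isomorphisms
`φ v : P v ≃ P (σ v)`, `α(x) = g v φ v (x) (g v)⁻¹` for `x` in `P v`.

Outline of the proof.  For a finite subset `T` let `r_T` be the projection to the product `N_T` of the
factors in `T`.  As `α` preserves the set of the normal closures of the factors, `r_T α` restricts to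
an isomorphism of `N_{σ⁻¹ T}` to `N_T`.  There is a bijection of `T` to `σ⁻¹ T` that fixes their
intersection and preserves the orbits of `σ`, so `N_T` is isomorphic to `N_{σ⁻¹ T}`, and on given
finite sets `α` agrees with a symmetric automorphism `ψ` of `N_T`, if `T` is large.  Then
`N = N_T * N_{V - T}` embeds in the mapping torus of `ψ * id`, an amalgamated product over `ℤ` which is
in the class, and the mapping torus of `α` is a colimit of HNN extensions that map to these groups
injectively on `N`.
-/

set_option autoImplicit false

namespace Pool.Agent.Results.MP_c052b4_al.SymmetricAutomorphisms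

open Monoid Pool.Agent.Y462.SS Pool.Agent.Q152.WP Pool.Agent.Q105.FJ

/-- The mapping tori of all symmetric automorphisms of the free product of the groups `P v` are
in `C`. -/
def Tori (C : ∀ (G : Type) [Group G], Prop) {V : Type} (P : V → Type) [∀ v, Group (P v)] : Prop :=
  ∀ α : MulAut (CoprodI P), SymAut α → C (MT (CoprodI P) α)

/-- The same for the free products of finitely many of the groups `P v`. -/
def FiniteTori (C : ∀ (G : Type) [Group G], Prop) {V : Type} (P : V → Type)
    [∀ v, Group (P v)] : Prop :=
  ∀ T : Finset V, Tori C (fun v : {v // v ∈ T} => P v.1)

/-- The conjugation by `g` is on the subgroup `CoprodI P` of `G`, embedded by `j`, a symmetric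
automorphism. -/
def Acts {V : Type} {P : V → Type} [∀ v, Group (P v)] {G : Type} [Group G] (j : CoprodI P →* G)
    (g : G) : Prop :=
  ∃ α : MulAut (CoprodI P), SymAut α ∧ ∀ x, g * j x * g⁻¹ = j (α x)

/-- The extensions of groups in `C` by the free product of all groups `P v`, on which the elements of
infinite order of the quotient act by symmetric automorphisms, are in `C`. -/
def Extensions (C : ∀ (G : Type) [Group G], Prop) {V : Type} (P : V → Type)
    [∀ v, Group (P v)] : Prop :=
  ∀ (G Q : Type) [Group G] [Group Q] (f : G →* Q) (j : CoprodI P →* G), Function.Surjective f →
    Function.Injective j → j.range = f.ker → C Q → (∀ g : G, ¬ IsOfFinOrder (f g) → Acts j g) → C G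

/-- **Extensions by infinite free products with symmetric automorphisms.** -/
theorem result (C : ∀ (G : Type) [Group G], Prop) (hC : Closed C) (hE : ExtClosed C) (V : Type)
    (P : V → Type) [∀ v, Group (P v)] (h : FiniteTori C P) : Tori C P ∧ Extensions C P :=
  ⟨fun α hα => sym_torus hC hE h α hα, fun _ _ _ _ f j hf hj hker hQ hg =>
    sym_kernel hC hE h f hf hQ j hj hker hg⟩

end Pool.Agent.Results.MP_c052b4_al.SymmetricAutomorphisms
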